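import Pool.Agent.J6H36.LF.Stm

/-!
# The implicit function theorem for polynomials over a finite extension of a complete field
-/

set_option autoImplicit false

universe u

namespace Pool.Agent.J6H92.LF

open MvPolynomial Pool.Agent.J6H36.LF Topology Filter

section

variable {P : Type} [Field P] {K A V : Type u} [NontriviallyNormedField K] [CompleteSpace K]
  [Field A] [Algebra P K] [Algebra K A] [Algebra P A] [NormedAddCommGroup V] [NormedSpace K V]
  [FiniteDimensional K V] {d : ℕ}

/-- the multiplication, as a continuous bilinear map -/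
noncomputable def mulV (φ : A ≃ₗ[K] V) : V →L[K] V →L[K] V :=
  LinearMap.toContinuousLinearMap
    ((LinearMap.toContinuousLinearMap : (V →ₗ[K] V) ≃ₗ[K] (V →L[K] V)).toLinearMap ∘ₗ
      LinearMap.mk₂ K (fun u v => φ (φ.symm u * φ.symm v))
        (fun u u' v => by simp [add_mul]) (fun c u v => by simp)
        (fun u v v' => by simp [mul_add]) (fun c u v => by simp))

theorem mulV_apply (φ : A ≃ₗ[K] V) (u v : V) : mulV φ u v = φ (φ.symm u * φ.symm v) := rfl

/-- the value of a polynomial -/
noncomputable def ev (φ : A ≃ₗ[K] V) (g : MvPolynomial (Option (Fin d)) P)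
    (p : (Fin d → V) × V) : V :=
  φ (aeval (pt (φ.symm p.2) (fun i => φ.symm (p.1 i))) g)

/-- the coordinates -/
noncomputable def co (K : Type u) {V : Type u} [NontriviallyNormedField K] [NormedAddCommGroup V]
    [NormedSpace K V] {d : ℕ} (o : Option (Fin d)) : (Fin d → V) × V →L[K] V :=
  o.elim (ContinuousLinearMap.snd K (Fin d → V) V)
    fun i => (ContinuousLinearMap.proj i).comp (ContinuousLinearMap.fst K (Fin d → V) V)

omit [CompleteSpace K] [FiniteDimensional K V] in
theorem pt_co (φ : A ≃ₗ[K] V) (p : (Fin d → V) × V) (o : Option (Fin d)) :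
    pt (φ.symm p.2) (fun i => φ.symm (p.1 i)) o = φ.symm (co K o p) := by
  cases o <;> rfl

omit [Algebra P K] in
theorem deriv_ev (φ : A ≃ₗ[K] V) (p : (Fin d → V) × V) (g : MvPolynomial (Option (Fin d)) P) :
    ∃ D : (Fin d → V) × V →L[K] V, HasStrictFDerivAt (ev φ g) D p ∧
      ∀ z, D (0, z) = φ (aeval (pt (φ.symm p.2) (fun i => φ.symm (p.1 i))) (pderiv none g) *
        φ.symm z) := by
  induction g using MvPolynomial.induction_on with
  | C a =>
    refine ⟨0, ?_, fun z => ?_⟩
    · have h : ev φ (C a : MvPolynomial (Option (Fin d)) P) = fun _ => φ (algebraMap P A a) := by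
        funext q
        unfold ev
        rw [aeval_C]
      rw [h]
      exact hasStrictFDerivAt_const _ _
    · rw [pderiv_C, map_zero, zero_mul, map_zero]
      rfl
  | add g g' h h' =>
    obtain ⟨D, hD, hz⟩ := h
    obtain ⟨D', hD', hz'⟩ := h'
    refine ⟨D + D', ?_, fun z => ?_⟩
    · have h : ev φ (g + g') = fun q => ev φ g q + ev φ g' q := by
        funext q
        unfold ev
        rw [map_add, map_add]
      rw [h]
      exact hD.add hD'
    · show D (0, z) + D' (0, z) = _
      rw [hz, hz', map_add (pderiv none), map_add (aeval _), add_mul, map_add]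
  | mul_X g o h =>
    obtain ⟨D, hD, hz⟩ := h
    have hc : HasStrictFDerivAt (fun q : (Fin d → V) × V => co K o q) (co K o) p :=
      (co (V := V) K o).hasStrictFDerivAt
    have h1 := (mulV φ).hasStrictFDerivAt_of_bilinear hD hc
    refine ⟨(mulV φ).precompR _ (ev φ g p) (co K o) + (mulV φ).precompL _ D (co K o p), ?_,
      fun z => ?_⟩
    · have h : ev φ (g * X o) = fun q => mulV φ (ev φ g q) (co K o q) := by
        funext q
        rw [mulV_apply, ← pt_co φ q o]
        unfold ev
        rw [map_mul, aeval_X, LinearEquiv.symm_apply_apply]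
      rw [h]
      exact h1
    · show mulV φ (ev φ g p) (co K o (0, z)) + mulV φ (D (0, z)) (co K o p) = _
      rw [mulV_apply, mulV_apply, ← pt_co φ p o, hz z, LinearEquiv.symm_apply_apply, ← map_add,
        Derivation.leibniz, map_add (aeval _), smul_eq_mul, smul_eq_mul, map_mul (aeval _),
        map_mul (aeval _), aeval_X]
      unfold ev
      rw [LinearEquiv.symm_apply_apply]
      congr 1
      cases o with
      | none =>
        have h2 : φ.symm (co K (none : Option (Fin d)) ((0 : Fin d → V), z)) = φ.symm z := rfl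
        rw [h2, pderiv_X_self, map_one]
        ring
      | some i =>
        have h2 : co K (some i) ((0 : Fin d → V), z) = 0 := rfl
        rw [h2, map_zero, pderiv_X_of_ne (by simp), map_zero]
        ring

end

theorem t_IFT : S_IFT.{u} := by
  classical
  intro P _ K A _ _ _ _ _ _ _ _ d m f t₀ a₀ e h0 h1
  let φ : A ≃ₗ[K] (Fin (Module.finrank K A) → K) := (Module.finBasis K A).equivFun
  let p₀ : (Fin d → (Fin (Module.finrank K A) → K)) × (Fin (Module.finrank K A) → K) :=
    (fun i => φ (t₀ i), φ a₀)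
  have hp : pt (φ.symm p₀.2) (fun i => φ.symm (p₀.1 i)) = pt a₀ t₀ := by
    simp [p₀]
  obtain ⟨D, hD, hz⟩ := deriv_ev φ p₀ f
  rw [hp] at hz
  have hΨ : HasStrictFDerivAt (fun q => (q.1, ev φ f q))
      ((ContinuousLinearMap.fst K _ _).prod D) p₀ :=
    (ContinuousLinearMap.fst K _ _).hasStrictFDerivAt.prodMk hD
  have hsurj : ((ContinuousLinearMap.fst K (Fin d → (Fin (Module.finrank K A) → K))
      (Fin (Module.finrank K A) → K)).prod D).range = ⊤ := by
    rw [LinearMap.range_eq_top]
    rintro ⟨s, y⟩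
    refine ⟨(s, φ ((aeval (pt a₀ t₀) (pderiv none f))⁻¹ * φ.symm (y - D (s, 0)))), ?_⟩
    refine Prod.ext rfl ?_
    show D (s, _) = y
    have h2 : ∀ z, D (s, z) = D (s, 0) + D (0, z) := fun z => by
      rw [← map_add, Prod.mk_add_mk, add_zero, zero_add]
    rw [h2, hz, LinearEquiv.symm_apply_apply, mul_inv_cancel_left₀ h1, LinearEquiv.apply_symm_apply]
    abel
  have hmap := hΨ.map_nhds_eq_of_surj hsurj
  have hev : ev φ f p₀ = 0 := by
    unfold ev
    rw [hp, h0, map_zero]
  have hmem : Set.range (fun q => (q.1, ev φ f q)) ∈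
      𝓝 ((p₀.1, (0 : Fin (Module.finrank K A) → K))) := by
    have h2 : (fun q => (q.1, ev φ f q)) p₀ = (p₀.1, (0 : Fin (Module.finrank K A) → K)) := by
      rw [← hev]
    rw [← h2, ← hmap]
    exact range_mem_map
  have hc : Continuous (fun b : Fin d × Fin m → K =>
      ((fun i => φ (t₀ i) + ∑ l, b (i, l) • φ (e l) : Fin d → (Fin (Module.finrank K A) → K)),
        (0 : Fin (Module.finrank K A) → K))) := by
    refine Continuous.prodMk (continuous_pi fun i => ?_) continuous_const
    refine continuous_const.add (continuous_finsetSum _ fun l _ => ?_)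
    exact (continuous_apply (i, l)).smul continuous_const
  have h4 : (fun b : Fin d × Fin m → K =>
      ((fun i => φ (t₀ i) + ∑ l, b (i, l) • φ (e l) : Fin d → (Fin (Module.finrank K A) → K)),
        (0 : Fin (Module.finrank K A) → K))) 0 = (p₀.1, 0) := by
    simp [p₀]
  have h3 : Tendsto (fun b : Fin d × Fin m → K =>
      ((fun i => φ (t₀ i) + ∑ l, b (i, l) • φ (e l) : Fin d → (Fin (Module.finrank K A) → K)),
        (0 : Fin (Module.finrank K A) → K))) (𝓝 0) (𝓝 (p₀.1, 0)) := by
    rw [← h4]
    exact hc.tendsto 0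
  obtain ⟨ε, hε, hball⟩ := Metric.mem_nhds_iff.1 (h3 hmem)
  refine ⟨ε, hε, fun b hb => ?_⟩
  have h5 : b ∈ Metric.ball (0 : Fin d × Fin m → K) ε := by
    rw [mem_ball_zero_iff, pi_norm_lt_iff hε]
    exact hb
  obtain ⟨q, hq⟩ := hball h5
  have hq1 : q.1 = fun i => φ (t₀ i) + ∑ l, b (i, l) • φ (e l) := congrArg Prod.fst hq
  have hq2 : ev φ f q = 0 := congrArg Prod.snd hq
  refine ⟨φ.symm q.2, ?_⟩
  have h6 : (fun i => φ.symm (q.1 i)) = fun i => t₀ i + ∑ l, b (i, l) • e l := by
    funext i
    rw [hq1]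
    simp
  unfold ev at hq2
  rw [h6] at hq2
  exact φ.map_eq_zero_iff.1 hq2

end Pool.Agent.J6H92.LF
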